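import Pool.Agent.helper29.BN.ProjSmallB
import Pool.Agent.helper11.BN.Proj

set_option autoImplicit false

/-!
# MP_94a57f_an: smallness of the projected bubble (module D4d)
-/

open MeasureTheory Filter Topology Set Metric
open scoped ContDiff Gradient RealInnerProductSpace ENNReal

noncomputable section
namespace Pool.Agent.helper13.BN
variable {N : ℕ}

/-- smallness of the projected bubble in the weaker norms, lower bound near the centre -/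
theorem proj_small (hN : 3 ≤ N) (hN5 : N ≤ 5) {ρ : ℝ} (hρ : 0 < ρ) (hρ1 : ρ < 1) :
    ∃ C d₁ : ℝ, 0 < C ∧ 0 < d₁ ∧ ρ < 1 - d₁ ∧ ∀ (e : E N) (d μ : ℝ), ‖e‖ = 1 → 0 < d → d < d₁ →
      0 < μ → μ ≤ d ^ 2 →
      nq (td N) (ann N ρ) (fn (WW e ρ d μ)) ≤ C * μ ^ cc N ∧
      nq (td N) (ann N ρ) (fun x => fn (WW e ρ d μ) x ^ pm N) ≤ C * μ ^ cc N ∧
      nq (td N) (ann N ρ) (fun x => nl N (bub N μ (cen e d) x) - nl N (fn (WW e ρ d μ) x))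
        ≤ C * μ ^ cc N ∧
      nq (N / 2) (ann N ρ) (fn (WW e ρ d μ)) ≤ C * μ ^ ((1 : ℝ) / 4) ∧
      nq (N / 2) (ann N ρ) (fun x => fn (WW e ρ d μ) x ^ (pm N - 1)) ≤ C * μ ^ ((1 : ℝ) / 4) ∧
      nq (N / 2) (ann N ρ) (fun x => dnl N (bub N μ (cen e d) x) - dnl N (fn (WW e ρ d μ) x))
        ≤ C * μ ^ ((1 : ℝ) / 4) ∧
      nq 2 (ann N ρ) (fn (WW e ρ d μ)) ≤ C * μ ^ ((1 : ℝ) / 4) ∧
      nq (td N) (ann N ρ) (fn (ZM e ρ d μ)) ≤ C * μ ^ cc N ∧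
      nq (td N) (ann N ρ) (fn (ZX e ρ d μ)) ≤ C * μ ^ cc N ∧
      nq (td N) (ann N ρ) (fun x => dnl N (bub N μ (cen e d) x) *
        (bubMu N μ (cen e d) x - fn (ZM e ρ d μ) x)) ≤ C * μ ^ cc N ∧
      nq (td N) (ann N ρ) (fun x => dnl N (bub N μ (cen e d) x) *
        (bubXi N e μ (cen e d) x - fn (ZX e ρ d μ) x)) ≤ C * μ ^ cc N ∧
      C⁻¹ ≤ nq (ts N) (ball (cen e d) μ) (fn (WW e ρ d μ)) ∧
      ‖WW e ρ d μ‖ ≤ C ∧ ‖ZM e ρ d μ‖ ≤ C ∧ ‖ZX e ρ d μ‖ ≤ C ∧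
      C⁻¹ ≤ ‖WW e ρ d μ‖ ∧ C⁻¹ ≤ ‖ZM e ρ d μ‖ ∧ C⁻¹ ≤ ‖ZX e ρ d μ‖ ∧
      |⟪ZM e ρ d μ, ZX e ρ d μ⟫| ≤ C * μ ^ ((1 : ℝ) / 4) ∧
      |⟪ZM e ρ d μ, WW e ρ d μ⟫| ≤ C * μ ^ ((1 : ℝ) / 4) ∧
      |⟪ZX e ρ d μ, WW e ρ d μ⟫| ≤ C * μ ^ ((1 : ℝ) / 4) :=
  proj_small_of hN hN5 hρ1 (proj_est hN hN5 hρ hρ1)

end Pool.Agent.helper13.BN
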