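import Pool.Agent.helper13.BN.Stmt
import Pool.Agent.helper68.BN.BubInt2
import Pool.Agent.helper58.BN.Solve
import Pool.Agent.helper41.BN.Pw

set_option autoImplicit false

/-!
# MP_94a57f_an: smallness of the projected bubble (module D4d), preparations
-/

open MeasureTheory Filter Topology Set Metric
open scoped ContDiff Gradient RealInnerProductSpace ENNReal

noncomputable section
namespace Pool.Agent.helper13.BN
variable {N : ℕ}
open BI

/-- the estimates of the module `BN/Proj.lean` (D1) -/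
def ProjEst (N : ℕ) (ρ : ℝ) : Prop :=
    ∃ C d₁ : ℝ, 0 < C ∧ 0 < d₁ ∧ ρ < 1 - d₁ ∧ ∀ (e : E N) (d μ : ℝ), ‖e‖ = 1 → 0 < d → d < d₁ →
      0 < μ → μ ≤ d ^ 2 → ∀ᵐ x, x ∈ ann N ρ →
        0 ≤ fn (WW e ρ d μ) x ∧ fn (WW e ρ d μ) x ≤ bub N μ (cen e d) x ∧
        bub N μ (cen e d) x - fn (WW e ρ d μ) x ≤ C * μ ^ cc N * d ^ (2 - (N : ℝ)) ∧
        |bub N μ (cen e d) x - fn (WW e ρ d μ) x - alN N * μ ^ cc N * (2 * d) ^ (2 - (N : ℝ))|
          ≤ C * μ ^ cc N * d ^ (2 - (N : ℝ)) * (d + ‖x - cen e d‖ / d) ∧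
        |bubMu N μ (cen e d) x - fn (ZM e ρ d μ) x| ≤ C * μ ^ cc N * d ^ (2 - (N : ℝ)) ∧
        |bubXi N e μ (cen e d) x - fn (ZX e ρ d μ) x| ≤ C * μ ^ cc N * d ^ (2 - (N : ℝ)) ∧
        |fn (ZM e ρ d μ) x| ≤ C * fn (WW e ρ d μ) x ∧
        |fn (ZX e ρ d μ) x| ≤ C * fn (WW e ρ d μ) x

namespace PS

theorem isOpen_ann (N : ℕ) (ρ : ℝ) : IsOpen (ann N ρ) := by
  unfold ann
  exact (isOpen_lt continuous_const continuous_norm).inter
    (isOpen_lt continuous_norm continuous_const)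

theorem meas_ann (N : ℕ) (ρ : ℝ) : MeasurableSet (ann N ρ) := (isOpen_ann N ρ).measurableSet

/-- monotonicity of `nq` -/
theorem nq_le {q K : ℝ} {Ω : Set (E N)} (hΩ : MeasurableSet Ω) {f g : E N → ℝ} (hK : 0 ≤ K)
    (hg : Mq q Ω g) (h : ∀ᵐ x, x ∈ Ω → |f x| ≤ K * |g x|) : nq q Ω f ≤ K * nq q Ω g := by
  have h1 : ∀ᵐ x ∂(volume.restrict Ω), ‖f x‖ ≤ K * ‖g x‖ := by
    rw [ae_restrict_iff' hΩ]; exact h
  have h2 := eLpNorm_le_mul_eLpNorm_of_ae_le_mul h1 (ENNReal.ofReal q)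
  unfold nq
  have h3 : ENNReal.ofReal K * eLpNorm g (ENNReal.ofReal q) (volume.restrict Ω) ≠ ⊤ :=
    ENNReal.mul_ne_top ENNReal.ofReal_ne_top hg.2.ne
  have h4 := ENNReal.toReal_mono h3 h2
  rwa [ENNReal.toReal_mul, ENNReal.toReal_ofReal hK] at h4

theorem nq_set {q : ℝ} {Ω Ω' : Set (E N)} (hs : Ω ⊆ Ω') {g : E N → ℝ} (hg : Mq q Ω' g) :
    nq q Ω g ≤ nq q Ω' g := by
  unfold nq
  exact ENNReal.toReal_mono hg.2.ne
    (eLpNorm_mono_measure _ (Measure.restrict_mono_set _ hs))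

theorem Mq_set {q : ℝ} {Ω Ω' : Set (E N)} (hs : Ω ⊆ Ω') {g : E N → ℝ} (hg : Mq q Ω' g) :
    Mq q Ω g := hg.mono_measure (Measure.restrict_mono_set _ hs)

/-- combination -/
theorem nq_le_set {q K : ℝ} {Ω Ω' : Set (E N)} (hΩ : MeasurableSet Ω) (hs : Ω ⊆ Ω')
    {f g : E N → ℝ} (hK : 0 ≤ K)
    (hg : Mq q Ω' g) (h : ∀ᵐ x, x ∈ Ω → |f x| ≤ K * |g x|) : nq q Ω f ≤ K * nq q Ω' g :=
  (nq_le hΩ hK (Mq_set hs hg) h).trans (mul_le_mul_of_nonneg_left (nq_set hs hg) hK)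

/-- norms of powers of the bubble near the centre -/
theorem nq_bub_rpow (hN : 3 ≤ N) {q s k : ℝ} (hq : 0 < q) (hs : 0 < s)
    (h1 : q * k < s * q * cc N) (h2 : q * k ≤ N - s * q * cc N) :
    ∃ C : ℝ, 0 < C ∧ ∀ (μ : ℝ) (ξ : E N), 0 < μ → μ ≤ 1 →
      Mq q (ball ξ 3) (fun x => bub N μ ξ x ^ s) ∧
      nq q (ball ξ 3) (fun x => bub N μ ξ x ^ s) ≤ C * μ ^ k := by
  obtain ⟨C, hC, h⟩ := int_bub_pow hN (q := s * q) (k := q * k) (by positivity) h1.le h2 (Or.inl h1)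
  refine ⟨C ^ (1 / q), by positivity, fun μ ξ hμ hμ1 => ?_⟩
  obtain ⟨h3, h4⟩ := h μ ξ hμ hμ1
  have e1 : ∀ x, (bub N μ ξ x ^ s) ^ q = bub N μ ξ x ^ (s * q) := fun x => by
    rw [← Real.rpow_mul (bub_pos hN hμ ξ x).le]
  have h5 := nq_of_int (q := q) (Ω := ball ξ 3) hq (bub_rpow_cont hN hμ ξ s)
    (fun x => (Real.rpow_pos_of_pos (bub_pos hN hμ ξ x) _).le) (by
      simp_rw [e1]; exact h3)
  refine ⟨h5.1, ?_⟩
  rw [h5.2]
  simp_rw [e1]
  have h6 : 0 ≤ ∫ x in ball ξ 3, bub N μ ξ x ^ (s * q) :=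
    setIntegral_nonneg measurableSet_ball fun x _ => by
      have := bub_pos hN hμ ξ x
      positivity
  calc (∫ x in ball ξ 3, bub N μ ξ x ^ (s * q)) ^ (1 / q) ≤ (C * μ ^ (q * k)) ^ (1 / q) :=
        Real.rpow_le_rpow h6 h4 (by positivity)
    _ = C ^ (1 / q) * μ ^ k := by
        rw [Real.mul_rpow hC.le (by positivity), ← Real.rpow_mul hμ.le]
        congr 2
        field_simp

theorem nq_bub_half (hN : 3 ≤ N) (hN5 : N ≤ 5) : ∃ C : ℝ, 0 < C ∧ ∀ (μ : ℝ) (ξ : E N), 0 < μ →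
    μ ≤ 1 → Mq (N / 2) (ball ξ 3) (bub N μ ξ) ∧
      nq (N / 2) (ball ξ 3) (bub N μ ξ) ≤ C * μ ^ ((1 : ℝ) / 4) := by
  have h3 := cN3 hN
  have h5 : (N : ℝ) ≤ 5 := by exact_mod_cast hN5
  obtain ⟨C, hC, h⟩ := nq_bub_rpow hN (q := (N : ℝ) / 2) (s := 1) (k := 1 / 4) (by linarith)
    one_pos (by unfold cc; nlinarith) (by unfold cc; nlinarith)
  refine ⟨C, hC, fun μ ξ hμ hμ1 => ?_⟩
  have := h μ ξ hμ hμ1
  simp only [Real.rpow_one] at this
  exact this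

theorem nq_bub_half' (hN : 3 ≤ N) (hN5 : N ≤ 5) : ∃ C : ℝ, 0 < C ∧ ∀ (μ : ℝ) (ξ : E N), 0 < μ →
    μ ≤ 1 → Mq (N / 2) (ball ξ 3) (fun x => bub N μ ξ x ^ (pm N - 1)) ∧
      nq (N / 2) (ball ξ 3) (fun x => bub N μ ξ x ^ (pm N - 1)) ≤ C * μ ^ ((1 : ℝ) / 4) := by
  have h3 := cN3 hN
  have h5 : (N : ℝ) ≤ 5 := by exact_mod_cast hN5
  have hp := pw_pm_ge hN hN5
  have h6 : (pm N - 1) * (N / 2) * cc N = N * (6 - N) / 4 := by
    have := cc_pm hN
    calc (pm N - 1) * (N / 2) * cc N = (cc N * pm N - cc N) * (N / 2) := by ring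
      _ = _ := by rw [this]; unfold cc; ring
  refine nq_bub_rpow hN (q := (N : ℝ) / 2) (s := pm N - 1) (k := 1 / 4) (by linarith)
    (by linarith) ?_ ?_
  · rw [h6]; nlinarith
  · rw [h6]; nlinarith

theorem nq_bub_two (hN : 3 ≤ N) (hN5 : N ≤ 5) : ∃ C : ℝ, 0 < C ∧ ∀ (μ : ℝ) (ξ : E N), 0 < μ →
    μ ≤ 1 → Mq 2 (ball ξ 3) (bub N μ ξ) ∧
      nq 2 (ball ξ 3) (bub N μ ξ) ≤ C * μ ^ ((1 : ℝ) / 4) := by
  have h3 := cN3 hN
  have h5 : (N : ℝ) ≤ 5 := by exact_mod_cast hN5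
  obtain ⟨C, hC, h⟩ := nq_bub_rpow hN (q := 2) (s := 1) (k := 1 / 4) (by norm_num)
    one_pos (by unfold cc; linarith) (by unfold cc; linarith)
  refine ⟨C, hC, fun μ ξ hμ hμ1 => ?_⟩
  have := h μ ξ hμ hμ1
  simp only [Real.rpow_one] at this
  exact this

/-- lower bound of the bubble near the centre -/
theorem low_bub (hN : 3 ≤ N) {μ : ℝ} (hμ : 0 < μ) {ξ x : E N} (hx : x ∈ ball ξ μ) :
    alN N * 2 ^ (-cc N) * μ ^ (-cc N) ≤ bub N μ ξ x := by
  have ha := alN_pos hN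
  rw [mem_ball, dist_eq_norm] at hx
  have h1 : (2 * μ ^ 2) ^ (-cc N) ≤ (μ ^ 2 + ‖x - ξ‖ ^ 2) ^ (-cc N) := by
    refine Real.rpow_le_rpow_of_nonpos (by positivity) ?_ (by have := cc_pos hN; linarith)
    nlinarith [norm_nonneg (x - ξ)]
  have h2 : (2 * μ ^ 2) ^ (-cc N) = 2 ^ (-cc N) * (μ ^ (-cc N) * μ ^ (-cc N)) := by
    rw [Real.mul_rpow (by norm_num) (by positivity), ← Real.rpow_natCast μ 2,
      ← Real.rpow_mul hμ.le, ← Real.rpow_add hμ]
    congr 2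
    push_cast
    ring
  have h3 : μ ^ cc N * μ ^ (-cc N) = 1 := by
    rw [← Real.rpow_add hμ]; simp
  have h4 : alN N * 2 ^ (-cc N) * μ ^ (-cc N) = alN N * μ ^ cc N * (2 * μ ^ 2) ^ (-cc N) := by
    rw [h2]
    calc alN N * 2 ^ (-cc N) * μ ^ (-cc N)
        = alN N * 2 ^ (-cc N) * μ ^ (-cc N) * 1 := by ring
      _ = alN N * 2 ^ (-cc N) * μ ^ (-cc N) * (μ ^ cc N * μ ^ (-cc N)) := by rw [h3]
      _ = _ := by ring
  rw [h4]
  unfold bub
  gcongr

/-- lower bound of the norm near the centre -/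
theorem nq_lower (hN : 3 ≤ N) : ∃ c : ℝ, 0 < c ∧ ∀ (μ : ℝ) (ξ : E N) (f : E N → ℝ), 0 < μ →
    Mq (ts N) univ f → (∀ᵐ x, x ∈ ball ξ μ → bub N μ ξ x / 2 ≤ f x) →
      c ≤ nq (ts N) (ball ξ μ) f := by
  have hts := BI.ts_pos hN
  have ha := alN_pos hN
  set vb : ℝ := (volume (ball (0 : E N) 1)).toReal with hvb
  have hvbp : 0 < vb := ENNReal.toReal_pos (measure_ball_pos _ _ one_pos).ne' measure_ball_lt_top.ne
  have := nontriv hN
  refine ⟨alN N * 2 ^ (-cc N) / 2 * vb ^ (1 / ts N), by positivity, fun μ ξ f hμ hf h => ?_⟩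
  set m : ℝ := alN N * 2 ^ (-cc N) / 2 * μ ^ (-cc N) with hm
  have hmp : 0 < m := by positivity
  have hlow : ∀ x ∈ ball ξ μ, m ≤ bub N μ ξ x / 2 := by
    intro x hx
    have := low_bub hN hμ hx
    rw [hm]
    linarith
  have h1 : eLpNorm (fun _ : E N => m) (ENNReal.ofReal (ts N)) (volume.restrict (ball ξ μ)) ≤
      eLpNorm f (ENNReal.ofReal (ts N)) (volume.restrict (ball ξ μ)) := by
    refine eLpNorm_mono_ae ?_
    rw [ae_restrict_iff' measurableSet_ball]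
    filter_upwards [h] with x hx hxb
    rw [Real.norm_of_nonneg hmp.le]
    exact (hlow x hxb).trans ((hx hxb).trans (le_abs_self _))
  have h2 : eLpNorm (fun _ : E N => m) (ENNReal.ofReal (ts N)) (volume.restrict (ball ξ μ)) =
      ENNReal.ofReal (m * (μ ^ N * vb) ^ (1 / ts N)) := by
    rw [eLpNorm_const _ (by simpa using hts) (by
      rw [Ne, Measure.restrict_eq_zero]
      exact (measure_ball_pos _ _ hμ).ne'), Measure.restrict_apply_univ,
      ENNReal.toReal_ofReal hts.le, Measure.addHaar_ball _ _ hμ.le, finrank_euclideanSpace,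
      Fintype.card_fin, ← ENNReal.ofReal_toReal (a := volume (ball (0 : E N) 1))
        measure_ball_lt_top.ne, ← ENNReal.ofReal_mul (by positivity),
      ENNReal.ofReal_rpow_of_pos (by positivity), Real.enorm_eq_ofReal hmp.le,
      ← ENNReal.ofReal_mul hmp.le]
  have h3 := Mq_univ58 (ball ξ μ) hf
  have h4 := ENNReal.toReal_mono h3.2.ne h1
  rw [h2, ENNReal.toReal_ofReal (by positivity)] at h4
  refine (le_of_eq ?_).trans h4
  rw [Real.mul_rpow (by positivity) hvbp.le, ← Real.rpow_natCast μ N, ← Real.rpow_mul hμ.le, hm]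
  have h5 : (N : ℝ) * (1 / ts N) = cc N := by
    rw [← cc_ts hN]; field_simp
  have h6 : μ ^ (-cc N) * μ ^ cc N = 1 := by
    rw [← Real.rpow_add hμ]; simp
  rw [h5]
  calc alN N * 2 ^ (-cc N) / 2 * vb ^ (1 / ts N)
      = alN N * 2 ^ (-cc N) / 2 * 1 * vb ^ (1 / ts N) := by ring
    _ = alN N * 2 ^ (-cc N) / 2 * (μ ^ (-cc N) * μ ^ cc N) * vb ^ (1 / ts N) := by rw [h6]
    _ = _ := by ring

/-- `dnl U · F` with `|F| ≤ A U` is in `L^{td}` -/
theorem Mq_dnl (hN : 3 ≤ N) {μ : ℝ} (hμ : 0 < μ) (ξ : E N) {F : E N → ℝ} (hFc : Continuous F)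
    {A : ℝ} (hA : 0 ≤ A) (hF : ∀ x, |F x| ≤ A * bub N μ ξ x) (Ω : Set (E N)) :
    Mq (td N) Ω (fun x => dnl N (bub N μ ξ x) * F x) ∧
      nq (td N) Ω (fun x => dnl N (bub N μ ξ x) * F x) ≤ (pm N + 1) * A * sN N ^ (1 / td N) := by
  have hp := pm_pos hN
  have h1 := Mq_nl_bub hN hμ ξ
  have h2 : ∀ x, |dnl N (bub N μ ξ x) * F x| ≤ (pm N + 1) * A * |nl N (bub N μ ξ x)| := by
    intro x
    have hb := bub_pos hN hμ ξ x
    rw [dnl_bub hN hμ, nl_bub hN hμ, abs_mul, abs_of_pos (a := (pm N + 1) * bub N μ ξ x ^ pm N)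
      (by positivity), abs_of_pos (a := bub N μ ξ x ^ (pm N + 1)) (by positivity),
      Real.rpow_add_one hb.ne']
    calc (pm N + 1) * bub N μ ξ x ^ pm N * |F x|
        ≤ (pm N + 1) * bub N μ ξ x ^ pm N * (A * bub N μ ξ x) := by
          gcongr
          exact hF x
      _ = _ := by ring
  have hc : Continuous fun x => dnl N (bub N μ ξ x) * F x := by
    simp_rw [dnl_bub hN hμ]
    exact (continuous_const.mul (bub_rpow_cont hN hμ ξ (pm N))).mul hFc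
  have h3 : Mq (td N) univ (fun x => dnl N (bub N μ ξ x) * F x) :=
    MemLp.of_le_mul h1.1 hc.aestronglyMeasurable (Eventually.of_forall h2)
  refine ⟨Mq_univ58 Ω h3, ?_⟩
  have h4 := nq_le (q := td N) (Ω := univ) MeasurableSet.univ (K := (pm N + 1) * A) (by positivity)
    h1.1 (Eventually.of_forall fun x _ => h2 x)
  refine (nq_set (subset_univ Ω) h3).trans (h4.trans ?_)
  exact mul_le_mul_of_nonneg_left (h1.2 univ) (by positivity)

/-- the basic pairing estimate -/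
theorem pair_est (hN : 3 ≤ N) {μ : ℝ} (hμ : 0 < μ) {ξ : E N} {Ω : Set (E N)}
    (hΩ : MeasurableSet Ω) {r : ℝ} (hball : ball ξ r ⊆ Ω) {F G : E N → ℝ}
    (hFc : Continuous F) (hGc : Continuous G) {A B : ℝ} (hA : 0 ≤ A) (hB : 0 ≤ B)
    (hF : ∀ x, |F x| ≤ A * bub N μ ξ x) (hG : ∀ x, |G x| ≤ B * bub N μ ξ x)
    {w : LV N} (hw : w ∈ DD Ω) {κ : ℝ} (hκ : ∀ᵐ x, x ∈ Ω → |G x - fn w x| ≤ κ) (hκ0 : 0 ≤ κ) :
    |⟪T Ω (fun x => dnl N (bub N μ ξ x) * F x), w⟫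
        - ∫ x, dnl N (bub N μ ξ x) * (F x * G x)| ≤
      (pm N + 1) * (A * B) * (∫ x in (ball ξ r)ᶜ, bub N μ ξ x ^ ts N)
        + (pm N + 1) * A * κ * ∫ x, nl N (bub N μ ξ x) := by
  have hp := pm_pos hN
  have hM := (Mq_dnl hN hμ ξ hFc hA hF Ω).1
  obtain ⟨hi, he⟩ := weak_pair hN hΩ hM (T_weak hN hΩ hM) hw
  have hFG := int_prod hN hμ ξ hFc hGc hF hG
  have hFG' : ∀ x, |dnl N (bub N μ ξ x) * (F x * G x)| ≤
      (pm N + 1) * (A * B) * bub N μ ξ x ^ ts N := by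
    intro x
    have h2 := bub_pos hN hμ ξ x
    rw [dnl_bub hN hμ, abs_mul, abs_mul (F x),
      abs_of_pos (a := (pm N + 1) * bub N μ ξ x ^ pm N) (by positivity)]
    have h3 : bub N μ ξ x ^ ts N = bub N μ ξ x ^ pm N * (bub N μ ξ x * bub N μ ξ x) := by
      rw [← pm_add_two hN, Real.rpow_add h2, Real.rpow_two]; ring
    have h4 : |F x| * |G x| ≤ (A * bub N μ ξ x) * (B * bub N μ ξ x) :=
      mul_le_mul (hF x) (hG x) (abs_nonneg _) ((abs_nonneg _).trans (hF x))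
    rw [h3]
    calc (pm N + 1) * bub N μ ξ x ^ pm N * (|F x| * |G x|)
        ≤ (pm N + 1) * bub N μ ξ x ^ pm N * ((A * bub N μ ξ x) * (B * bub N μ ξ x)) := by gcongr
      _ = _ := by ring
  have hts := (int_bub_ts hN hμ ξ).1
  have hnl := (int_nl_bub hN hμ ξ).1
  have e1 := integral_add_compl hΩ hFG
  have e2 : (∫ x in Ω, dnl N (bub N μ ξ x) * (F x * G x)) -
      (∫ x in Ω, dnl N (bub N μ ξ x) * F x * fn w x) =
      ∫ x in Ω, dnl N (bub N μ ξ x) * F x * (G x - fn w x) := by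
    rw [← integral_sub hFG.integrableOn hi]
    refine integral_congr_ae (Eventually.of_forall fun x => ?_)
    simp only
    ring
  have h1 : |∫ x in Ωᶜ, dnl N (bub N μ ξ x) * (F x * G x)| ≤
      (pm N + 1) * (A * B) * ∫ x in (ball ξ r)ᶜ, bub N μ ξ x ^ ts N := by
    calc |∫ x in Ωᶜ, dnl N (bub N μ ξ x) * (F x * G x)|
        ≤ ∫ x in Ωᶜ, |dnl N (bub N μ ξ x) * (F x * G x)| := abs_integral_le_integral_abs
      _ ≤ ∫ x in Ωᶜ, (pm N + 1) * (A * B) * bub N μ ξ x ^ ts N := by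
          refine integral_mono_of_nonneg (Eventually.of_forall fun x => abs_nonneg _)
            (hts.const_mul _).integrableOn (Eventually.of_forall hFG')
      _ = (pm N + 1) * (A * B) * ∫ x in Ωᶜ, bub N μ ξ x ^ ts N := by rw [integral_const_mul]
      _ ≤ (pm N + 1) * (A * B) * ∫ x in (ball ξ r)ᶜ, bub N μ ξ x ^ ts N := by
          refine mul_le_mul_of_nonneg_left ?_ (by positivity)
          refine setIntegral_mono_set hts.integrableOn (Eventually.of_forall fun x => ?_)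
            (compl_subset_compl.2 hball).eventuallyLE
          have := bub_pos hN hμ ξ x
          simp only [Pi.zero_apply]
          positivity
  have h2 : |∫ x in Ω, dnl N (bub N μ ξ x) * F x * (G x - fn w x)| ≤
      (pm N + 1) * A * κ * ∫ x, nl N (bub N μ ξ x) := by
    have hk : ∀ᵐ x ∂(volume.restrict Ω), |dnl N (bub N μ ξ x) * F x * (G x - fn w x)| ≤
        (pm N + 1) * A * κ * nl N (bub N μ ξ x) := by
      rw [ae_restrict_iff' hΩ]
      filter_upwards [hκ] with x hx hxΩ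
      have h2 := bub_pos hN hμ ξ x
      rw [dnl_bub hN hμ, nl_bub hN hμ, Real.rpow_add_one h2.ne', abs_mul, abs_mul,
        abs_of_pos (a := (pm N + 1) * bub N μ ξ x ^ pm N) (by positivity)]
      calc (pm N + 1) * bub N μ ξ x ^ pm N * |F x| * |G x - fn w x|
          ≤ (pm N + 1) * bub N μ ξ x ^ pm N * (A * bub N μ ξ x) * κ := by
            gcongr
            · exact hF x
            · exact hx hxΩ
        _ = _ := by ring
    calc |∫ x in Ω, dnl N (bub N μ ξ x) * F x * (G x - fn w x)|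
        ≤ ∫ x in Ω, |dnl N (bub N μ ξ x) * F x * (G x - fn w x)| := abs_integral_le_integral_abs
      _ ≤ ∫ x in Ω, (pm N + 1) * A * κ * nl N (bub N μ ξ x) :=
          integral_mono_of_nonneg (Eventually.of_forall fun x => abs_nonneg _)
            (hnl.const_mul _).integrableOn hk
      _ = (pm N + 1) * A * κ * ∫ x in Ω, nl N (bub N μ ξ x) := by rw [integral_const_mul]
      _ ≤ _ := by
          refine mul_le_mul_of_nonneg_left ?_ (by positivity)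
          refine setIntegral_le_integral hnl (Eventually.of_forall fun x => ?_)
          simp only [Pi.zero_apply]
          rw [nl_bub hN hμ]
          have := bub_pos hN hμ ξ x
          positivity
  have e3 : ⟪T Ω (fun x => dnl N (bub N μ ξ x) * F x), w⟫
        - ∫ x, dnl N (bub N μ ξ x) * (F x * G x) =
      -(∫ x in Ωᶜ, dnl N (bub N μ ξ x) * (F x * G x)) -
        ∫ x in Ω, dnl N (bub N μ ξ x) * F x * (G x - fn w x) := by
    rw [he, ← e1, ← e2]; ring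
  rw [e3]
  have h3 := abs_sub (-(∫ x in Ωᶜ, dnl N (bub N μ ξ x) * (F x * G x)))
    (∫ x in Ω, dnl N (bub N μ ξ x) * F x * (G x - fn w x))
  rw [abs_neg] at h3
  exact h3.trans (add_le_add h1 h2)

end PS

end Pool.Agent.helper13.BN
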