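import Pool.Agent.helper29.BN.ProjSmallA

set_option autoImplicit false

/-!
# MP_94a57f_an: smallness of the projected bubble (module D4d), assembly
-/

open MeasureTheory Filter Topology Set Metric
open scoped ContDiff Gradient RealInnerProductSpace ENNReal

noncomputable section
namespace Pool.Agent.helper13.BN
variable {N : ℕ}
open BI PS

namespace PS

theorem scal (hN : 3 ≤ N) {d μ : ℝ} (hd : 0 < d) (hd1 : d ≤ 1) (hμ : 0 < μ) (hμd : μ ≤ d ^ 2) :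
    μ ≤ 1 ∧ μ ^ cc N ≤ μ ^ ((1 : ℝ) / 4) ∧ μ ^ cc N * d ^ (2 - (N : ℝ)) ≤ 1 ∧
      (μ / d) ^ (N : ℝ) ≤ μ ^ ((1 : ℝ) / 4) := by
  have h3 := cN3 hN
  have hμ1 : μ ≤ 1 := hμd.trans (by nlinarith)
  refine ⟨hμ1, ?_, ?_, ?_⟩
  · exact Real.rpow_le_rpow_of_exponent_ge hμ hμ1 (by unfold cc; linarith)
  · have h1 : d ^ (2 - (N : ℝ)) = ((d ^ 2) ^ cc N)⁻¹ := by
      rw [← Real.rpow_natCast d 2, ← Real.rpow_mul hd.le, ← Real.rpow_neg hd.le]
      congr 1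
      unfold cc
      push_cast
      ring
    rw [h1, ← div_eq_mul_inv, div_le_one (by positivity)]
    exact Real.rpow_le_rpow hμ.le hμd (cc_pos hN).le
  · have h1 : μ / d ≤ μ ^ ((1 : ℝ) / 2) := by
      rw [← Real.sqrt_eq_rpow, div_le_iff₀ hd]
      have h2 : Real.sqrt μ ≤ d := by
        rw [Real.sqrt_le_left hd.le]; exact hμd
      calc μ = Real.sqrt μ * Real.sqrt μ := (Real.mul_self_sqrt hμ.le).symm
        _ ≤ Real.sqrt μ * d := mul_le_mul_of_nonneg_left h2 (Real.sqrt_nonneg _)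
    calc (μ / d) ^ (N : ℝ) ≤ (μ ^ ((1 : ℝ) / 2)) ^ (N : ℝ) :=
          Real.rpow_le_rpow (by positivity) h1 (by linarith)
      _ = μ ^ ((1 : ℝ) / 2 * N) := by rw [← Real.rpow_mul hμ.le]
      _ ≤ μ ^ ((1 : ℝ) / 4) := Real.rpow_le_rpow_of_exponent_ge hμ hμ1 (by linarith)

theorem small_of {d μ ε : ℝ} (hε : 0 < ε) (hd : 0 < d) (hdε : d ≤ ε ^ 2)
    (hμ : 0 < μ) (hμd : μ ≤ d ^ 2) : μ ^ ((1 : ℝ) / 4) ≤ ε := by
  have h1 : μ ≤ ε ^ 4 := hμd.trans (by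
    calc d ^ 2 ≤ (ε ^ 2) ^ 2 := by gcongr
      _ = ε ^ 4 := by ring)
  calc μ ^ ((1 : ℝ) / 4) ≤ (ε ^ 4) ^ ((1 : ℝ) / 4) :=
        Real.rpow_le_rpow hμ.le h1 (by norm_num)
    _ = ε := by
        rw [← Real.rpow_natCast ε 4, ← Real.rpow_mul hε.le]
        norm_num

theorem norm_cen {e : E N} (he : ‖e‖ = 1) {d : ℝ} (hd1 : d ≤ 1) : ‖cen e d‖ = 1 - d := by
  unfold cen
  rw [norm_smul, he, mul_one, Real.norm_of_nonneg (by linarith)]

theorem ball_sub {e : E N} (he : ‖e‖ = 1) {d ρ : ℝ} (hd1 : d ≤ 1) (hρ : ρ < 1 - 2 * d) :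
    ball (cen e d) d ⊆ ann N ρ := by
  intro x hx
  rw [mem_ball, dist_eq_norm] at hx
  have h1 := norm_cen he hd1
  have h2 := norm_sub_norm_le (cen e d) x
  have h3 := norm_sub_norm_le x (cen e d)
  rw [norm_sub_rev] at h2
  constructor <;> linarith

theorem sub_ball {e : E N} (he : ‖e‖ = 1) {d ρ : ℝ} (hd : 0 < d) (hd1 : d ≤ 1) :
    ann N ρ ⊆ ball (cen e d) 3 := by
  intro x hx
  rw [mem_ball, dist_eq_norm]
  have h1 := norm_cen he hd1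
  have h2 := norm_sub_le x (cen e d)
  have h3 := hx.2
  linarith

theorem WW_eq (hN : 3 ≤ N) (e : E N) (ρ d : ℝ) {μ : ℝ} (hμ : 0 < μ) :
    WW e ρ d μ = T (ann N ρ) (fun x => dnl N (bub N μ (cen e d) x) *
      ((pm N + 1)⁻¹ * bub N μ (cen e d) x)) := by
  unfold WW
  congr 1
  funext x
  rw [nl_eq_dnl hN hμ]
  ring

theorem inv_le_of {C m K : ℝ} (hm : 0 < m) (hK : m⁻¹ = K) (h : K ≤ C) : C⁻¹ ≤ m := by
  rw [← hK] at h
  have := inv_anti₀ (inv_pos.2 hm) h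
  rwa [inv_inv] at this

/-- lower bound of a norm from a bound of its square -/
theorem norm_low {V : Type*} [NormedAddCommGroup V] [InnerProductSpace ℝ V] {z : V} {G K s : ℝ}
    (_hG : 0 < G) (h : |⟪z, z⟫ - G| ≤ K * s) (hs : K * s ≤ G / 2) : Real.sqrt (G / 2) ≤ ‖z‖ := by
  rw [real_inner_self_eq_norm_sq] at h
  have h1 := (abs_le.1 h).1
  rw [Real.sqrt_le_left (norm_nonneg _)]
  linarith

end PS

set_option maxHeartbeats 4000000 in
theorem proj_small_of (hN : 3 ≤ N) (hN5 : N ≤ 5) {ρ : ℝ} (hρ1 : ρ < 1) (hproj : ProjEst N ρ) :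
    ∃ C d₁ : ℝ, 0 < C ∧ 0 < d₁ ∧ ρ < 1 - d₁ ∧ ∀ (e : E N) (d μ : ℝ), ‖e‖ = 1 → 0 < d → d < d₁ →
      0 < μ → μ ≤ d ^ 2 →
      nq (td N) (ann N ρ) (fn (WW e ρ d μ)) ≤ C * μ ^ cc N ∧
      nq (td N) (ann N ρ) (fun x => fn (WW e ρ d μ) x ^ pm N) ≤ C * μ ^ cc N ∧
      nq (td N) (ann N ρ) (fun x => nl N (bub N μ (cen e d) x) - nl N (fn (WW e ρ d μ) x))
        ≤ C * μ ^ cc N ∧
      nq (N / 2) (ann N ρ) (fn (WW e ρ d μ)) ≤ C * μ ^ ((1 : ℝ) / 4) ∧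
      nq (N / 2) (ann N ρ) (fun x => fn (WW e ρ d μ) x ^ (pm N - 1)) ≤ C * μ ^ ((1 : ℝ) / 4) ∧
      nq (N / 2) (ann N ρ) (fun x => dnl N (bub N μ (cen e d) x) - dnl N (fn (WW e ρ d μ) x))
        ≤ C * μ ^ ((1 : ℝ) / 4) ∧
      nq 2 (ann N ρ) (fn (WW e ρ d μ)) ≤ C * μ ^ ((1 : ℝ) / 4) ∧
      nq (td N) (ann N ρ) (fn (ZM e ρ d μ)) ≤ C * μ ^ cc N ∧
      nq (td N) (ann N ρ) (fn (ZX e ρ d μ)) ≤ C * μ ^ cc N ∧
      nq (td N) (ann N ρ) (fun x => dnl N (bub N μ (cen e d) x) *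
        (bubMu N μ (cen e d) x - fn (ZM e ρ d μ) x)) ≤ C * μ ^ cc N ∧
      nq (td N) (ann N ρ) (fun x => dnl N (bub N μ (cen e d) x) *
        (bubXi N e μ (cen e d) x - fn (ZX e ρ d μ) x)) ≤ C * μ ^ cc N ∧
      C⁻¹ ≤ nq (ts N) (ball (cen e d) μ) (fn (WW e ρ d μ)) ∧
      ‖WW e ρ d μ‖ ≤ C ∧ ‖ZM e ρ d μ‖ ≤ C ∧ ‖ZX e ρ d μ‖ ≤ C ∧
      C⁻¹ ≤ ‖WW e ρ d μ‖ ∧ C⁻¹ ≤ ‖ZM e ρ d μ‖ ∧ C⁻¹ ≤ ‖ZX e ρ d μ‖ ∧
      |⟪ZM e ρ d μ, ZX e ρ d μ⟫| ≤ C * μ ^ ((1 : ℝ) / 4) ∧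
      |⟪ZM e ρ d μ, WW e ρ d μ⟫| ≤ C * μ ^ ((1 : ℝ) / 4) ∧
      |⟪ZX e ρ d μ, WW e ρ d μ⟫| ≤ C * μ ^ ((1 : ℝ) / 4) := by
  obtain ⟨C₀, d₀, hC₀, hd₀, hρd₀, hest⟩ := hproj
  obtain ⟨C1, hC1, h1⟩ := nq_bub_td hN hN5
  obtain ⟨C2, hC2, h2⟩ := nq_bub_pm hN hN5
  obtain ⟨C4, hC4, h4⟩ := nq_bub_half hN hN5
  obtain ⟨C5, hC5, h5⟩ := nq_bub_half' hN hN5
  obtain ⟨C7, hC7, h7⟩ := nq_bub_two hN hN5
  obtain ⟨cb, hcb, hlow⟩ := nq_lower hN
  obtain ⟨Ct, hCt, htail⟩ := tail_ts hN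
  obtain ⟨G₁, G₂, hG₁, hG₂, hgram⟩ := gram_bub hN
  have hp := pm_pos hN
  have hpm := pw_pm_ge hN hN5
  have hc := cc_pos hN
  have ha := alN_pos hN
  have haN := aN_pos hN
  have hsN := sN_pos hN
  have hSS : 0 < SS N := SS_pos
  have htd := td_pos hN
  have hts := BI.ts_pos hN
  -- constants
  set p1 := pm N + 1 with hp1
  have hp1p : 0 < p1 := by linarith
  set KK := p1 * (cc N * cc N) * Ct + p1 * cc N * C₀ * aN N with hKK
  have hKKp : 0 < KK := by positivity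
  set KL := cc N * Ct + C₀ * aN N with hKL
  have hKLp : 0 < KL := by positivity
  set S0 := SS N * (sN N ^ (1 / td N)) with hS0
  have hS0p : 0 < S0 := by positivity
  set S1 := SS N * (p1 * cc N * sN N ^ (1 / td N)) with hS1
  have hS1p : 0 < S1 := by positivity
  set m1 := alN N * 2 ^ (-cc N) / (2 * C₀) with hm1
  have hm1p : 0 < m1 := by positivity
  obtain ⟨ε, hε, hε1, hεm, hεG1, hεG2⟩ : ∃ ε : ℝ, 0 < ε ∧ ε ≤ 1 ∧ ε ≤ m1 ∧ KK * ε ≤ G₁ / 2 ∧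
      KK * ε ≤ G₂ / 2 := by
    refine ⟨min (min 1 m1) (min (G₁ / 2 / KK) (G₂ / 2 / KK)), by positivity,
      (min_le_left _ _).trans (min_le_left _ _), (min_le_left _ _).trans (min_le_right _ _), ?_, ?_⟩
    · have : min (min 1 m1) (min (G₁ / 2 / KK) (G₂ / 2 / KK)) ≤ G₁ / 2 / KK :=
        (min_le_right _ _).trans (min_le_left _ _)
      rw [le_div_iff₀ hKKp] at this
      linarith
    · have : min (min 1 m1) (min (G₁ / 2 / KK) (G₂ / 2 / KK)) ≤ G₂ / 2 / KK :=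
        (min_le_right _ _).trans (min_le_right _ _)
      rw [le_div_iff₀ hKKp] at this
      linarith
  set s1 := Real.sqrt (G₁ / 2) with hs1
  have hs1p : 0 < s1 := Real.sqrt_pos.2 (by positivity)
  set s2 := Real.sqrt (G₂ / 2) with hs2
  have hs2p : 0 < s2 := Real.sqrt_pos.2 (by positivity)
  obtain ⟨C, hC, k1, k2, k3, k4, k5, k6, k7, k8, k10, k12, k13, k14, k15, k16, k17, k18, k19⟩ :
      ∃ C : ℝ, 0 < C ∧ C1 ≤ C ∧ C2 ≤ C ∧ 2 * p1 * C₀ * C2 ≤ C ∧ C4 ≤ C ∧ C5 ≤ C ∧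
        2 * (p1 * pm N) * C₀ * C5 ≤ C ∧ C7 ≤ C ∧ C₀ * C1 ≤ C ∧ p1 * C₀ * C2 ≤ C ∧ cb⁻¹ ≤ C ∧
        S0 ≤ C ∧ S1 ≤ C ∧ (cb / SS N)⁻¹ ≤ C ∧ s1⁻¹ ≤ C ∧ s2⁻¹ ≤ C ∧ KK ≤ C ∧ KL ≤ C := by
    refine ⟨C1 + C2 + 2 * p1 * C₀ * C2 + C4 + C5 + 2 * (p1 * pm N) * C₀ * C5 + C7 + C₀ * C1 +
      p1 * C₀ * C2 + cb⁻¹ + S0 + S1 + (cb / SS N)⁻¹ + s1⁻¹ + s2⁻¹ + KK + KL, by positivity, ?_⟩
    have a1 : 0 < 2 * p1 * C₀ * C2 := by positivity
    have a2 : 0 < 2 * (p1 * pm N) * C₀ * C5 := by positivity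
    have a3 : 0 < C₀ * C1 := by positivity
    have a4 : 0 < p1 * C₀ * C2 := by positivity
    have a5 : 0 < cb⁻¹ := by positivity
    have a6 : 0 < (cb / SS N)⁻¹ := by positivity
    have a7 : 0 < s1⁻¹ := by positivity
    have a8 : 0 < s2⁻¹ := by positivity
    refine ⟨?_, ?_, ?_, ?_, ?_, ?_, ?_, ?_, ?_, ?_, ?_, ?_, ?_, ?_, ?_, ?_, ?_⟩ <;> linarith
  refine ⟨C, min (min d₀ ((1 - ρ) / 3)) (min (1 / 2) (ε ^ 2)), hC, by
    have : 0 < 1 - ρ := by linarith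
    positivity, by
    have := (min_le_left (min d₀ ((1 - ρ) / 3)) (min (1 / 2) (ε ^ 2))).trans (min_le_left _ _)
    linarith, ?_⟩
  intro e d μ he hd hdd hμ hμd
  have hdd0 : d < d₀ := hdd.trans_le ((min_le_left _ _).trans (min_le_left _ _))
  have hdρ : d < (1 - ρ) / 3 := hdd.trans_le ((min_le_left _ _).trans (min_le_right _ _))
  have hd2 : d < 1 / 2 := hdd.trans_le ((min_le_right _ _).trans (min_le_left _ _))
  have hdε : d < ε ^ 2 := hdd.trans_le ((min_le_right _ _).trans (min_le_right _ _))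
  have hd1 : d ≤ 1 := by linarith
  obtain ⟨hμ1, hs, hδ, hr⟩ := scal hN hd hd1 hμ hμd
  have hsε := small_of hε hd hdε.le hμ hμd
  set ξ := cen e d with hξ
  set s := μ ^ ((1 : ℝ) / 4) with hsdef
  have hsp : 0 < s := by positivity
  have hΩm := meas_ann N ρ
  have hball : ball ξ d ⊆ ann N ρ := ball_sub he hd1 (by linarith)
  have hΩs : ann N ρ ⊆ ball ξ 3 := sub_ball he hd hd1
  have hδ0 : 0 < μ ^ cc N * d ^ (2 - (N : ℝ)) := by positivity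
  have hδ' : C₀ * μ ^ cc N * d ^ (2 - (N : ℝ)) ≤ C₀ := by
    calc C₀ * μ ^ cc N * d ^ (2 - (N : ℝ)) = C₀ * (μ ^ cc N * d ^ (2 - (N : ℝ))) := by ring
      _ ≤ C₀ * 1 := by gcongr
      _ = C₀ := by ring
  -- pointwise facts
  have H := hest e d μ he hd hdd0 hμ hμd
  have hub : ∀ x, 0 < bub N μ ξ x := bub_pos hN hμ ξ
  have HW : ∀ᵐ x, x ∈ ann N ρ → 0 ≤ fn (WW e ρ d μ) x ∧ fn (WW e ρ d μ) x ≤ bub N μ ξ x ∧
      |bub N μ ξ x - fn (WW e ρ d μ) x| ≤ C₀ := by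
    filter_upwards [H] with x hx hxΩ
    obtain ⟨a1, a2, a3, -⟩ := hx hxΩ
    refine ⟨a1, a2, ?_⟩
    rw [abs_of_nonneg (by linarith)]
    exact a3.trans hδ'
  have HM : ∀ᵐ x, x ∈ ann N ρ → |bubMu N μ ξ x - fn (ZM e ρ d μ) x| ≤ C₀ := by
    filter_upwards [H] with x hx hxΩ
    obtain ⟨-, -, -, -, a5, -⟩ := hx hxΩ
    exact a5.trans hδ'
  have HX : ∀ᵐ x, x ∈ ann N ρ → |bubXi N e μ ξ x - fn (ZX e ρ d μ) x| ≤ C₀ := by
    filter_upwards [H] with x hx hxΩ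
    obtain ⟨-, -, -, -, -, a6, -⟩ := hx hxΩ
    exact a6.trans hδ'
  have HM' : ∀ᵐ x, x ∈ ann N ρ → |fn (ZM e ρ d μ) x| ≤ C₀ * |bub N μ ξ x| := by
    filter_upwards [H] with x hx hxΩ
    obtain ⟨-, a2, -, -, -, -, a7, -⟩ := hx hxΩ
    rw [abs_of_pos (hub x)]
    exact a7.trans (mul_le_mul_of_nonneg_left a2 hC₀.le)
  have HX' : ∀ᵐ x, x ∈ ann N ρ → |fn (ZX e ρ d μ) x| ≤ C₀ * |bub N μ ξ x| := by
    filter_upwards [H] with x hx hxΩ
    obtain ⟨-, a2, -, -, -, -, -, a8⟩ := hx hxΩ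
    rw [abs_of_pos (hub x)]
    exact a8.trans (mul_le_mul_of_nonneg_left a2 hC₀.le)
  have HW1 : ∀ᵐ x, x ∈ ann N ρ → |fn (WW e ρ d μ) x| ≤ 1 * |bub N μ ξ x| := by
    filter_upwards [HW] with x hx hxΩ
    obtain ⟨a1, a2, -⟩ := hx hxΩ
    rw [abs_of_nonneg a1, abs_of_pos (hub x), one_mul]
    exact a2
  have HWp : ∀ q : ℝ, 0 ≤ q → ∀ᵐ x, x ∈ ann N ρ → |fn (WW e ρ d μ) x ^ q| ≤
      1 * |bub N μ ξ x ^ q| := by
    intro q hq
    filter_upwards [HW] with x hx hxΩ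
    obtain ⟨a1, a2, -⟩ := hx hxΩ
    have := hub x
    rw [abs_of_nonneg (Real.rpow_nonneg a1 q), abs_of_pos (a := bub N μ ξ x ^ q) (by positivity),
      one_mul]
    exact Real.rpow_le_rpow a1 a2 hq
  have g1 := h1 μ ξ hμ hμ1
  have g2 := h2 μ ξ hμ
  have g4 := h4 μ ξ hμ hμ1
  have g5 := h5 μ ξ hμ hμ1
  have g7 := h7 μ ξ hμ hμ1
  have hcp : 0 < μ ^ cc N := by positivity
  have sub1 : ∀ {X K : ℝ}, X ≤ K * μ ^ cc N → K ≤ C → X ≤ C * μ ^ cc N := fun h k =>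
    h.trans (mul_le_mul_of_nonneg_right k hcp.le)
  have sub2 : ∀ {X K : ℝ}, X ≤ K * s → K ≤ C → X ≤ C * s := fun h k =>
    h.trans (mul_le_mul_of_nonneg_right k hsp.le)
  -- memberships
  have mW : WW e ρ d μ ∈ DD (ann N ρ) := T_mem _ _
  have mM : ZM e ρ d μ ∈ DD (ann N ρ) := T_mem _ _
  have mX : ZX e ρ d μ ∈ DD (ann N ρ) := T_mem _ _
  have hbc := bub_cont hN hμ ξ
  have hMc := bubMu_cont hN hμ ξ
  have hXc := bubXi_cont hN e hμ ξ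
  have hMle := bubMu_le hN hμ ξ
  have hXle := bubXi_le hN he hμ ξ
  have hUle : ∀ x, |p1⁻¹ * bub N μ ξ x| ≤ p1⁻¹ * bub N μ ξ x := fun x => by
    have := hub x
    rw [abs_of_pos (by positivity)]
  have hUc : Continuous fun x => p1⁻¹ * bub N μ ξ x := continuous_const.mul hbc
  obtain ⟨hg1, hg2, hg3⟩ := hgram e he μ ξ hμ
  have htl : ∫ x in (ball ξ d)ᶜ, bub N μ ξ x ^ ts N ≤ Ct * s :=
    (htail μ d ξ hμ hd).trans (mul_le_mul_of_nonneg_left hr hCt.le)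
  have hnl := (int_nl_bub hN hμ ξ).2
  have hnl' : ∫ x, nl N (bub N μ ξ x) ≤ aN N * s := by
    rw [hnl]; exact mul_le_mul_of_nonneg_left hs haN.le
  -- pairing of `Z`'s
  have pMM : |⟪ZM e ρ d μ, ZM e ρ d μ⟫ - G₁| ≤ KK * s := by
    have := pair_est hN hμ hΩm hball hMc hMc hc.le hc.le hMle hMle mM HM hC₀.le
    have e1 : ∫ x, dnl N (bub N μ ξ x) * (bubMu N μ ξ x * bubMu N μ ξ x) = G₁ := by
      rw [← hg1]; congr 1; funext x; ring
    rw [e1] at this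
    refine this.trans ?_
    calc _ ≤ p1 * (cc N * cc N) * (Ct * s) + p1 * cc N * C₀ * (aN N * s) := by gcongr
      _ = KK * s := by rw [hKK]; ring
  have pXX : |⟪ZX e ρ d μ, ZX e ρ d μ⟫ - G₂| ≤ KK * s := by
    have := pair_est hN hμ hΩm hball hXc hXc hc.le hc.le hXle hXle mX HX hC₀.le
    have e1 : ∫ x, dnl N (bub N μ ξ x) * (bubXi N e μ ξ x * bubXi N e μ ξ x) = G₂ := by
      rw [← hg2]; congr 1; funext x; ring
    rw [e1] at this
    refine this.trans ?_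
    calc _ ≤ p1 * (cc N * cc N) * (Ct * s) + p1 * cc N * C₀ * (aN N * s) := by gcongr
      _ = KK * s := by rw [hKK]; ring
  have pMX : |⟪ZM e ρ d μ, ZX e ρ d μ⟫| ≤ KK * s := by
    have := pair_est hN hμ hΩm hball hMc hXc hc.le hc.le hMle hXle mX HX hC₀.le
    rw [hg3, sub_zero] at this
    refine this.trans ?_
    calc _ ≤ p1 * (cc N * cc N) * (Ct * s) + p1 * cc N * C₀ * (aN N * s) := by gcongr
      _ = KK * s := by rw [hKK]; ring
  have pWM : |⟪WW e ρ d μ, ZM e ρ d μ⟫| ≤ KL * s := by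
    have := pair_est hN hμ hΩm hball hUc hMc (inv_pos.2 hp1p).le hc.le hUle hMle mM HM hC₀.le
    rw [← WW_eq hN e ρ d hμ] at this
    have e1 : ∫ x, dnl N (bub N μ ξ x) * (p1⁻¹ * bub N μ ξ x * bubMu N μ ξ x) = 0 := by
      rw [← (int_nl_bubMu hN hμ ξ).2]
      congr 1; funext x
      rw [nl_eq_dnl hN hμ]; ring
    rw [e1, sub_zero] at this
    refine this.trans ?_
    calc _ ≤ p1 * (p1⁻¹ * cc N) * (Ct * s) + p1 * p1⁻¹ * C₀ * (aN N * s) := by gcongr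
      _ = KL * s := by rw [hKL]; field_simp
  have pWX : |⟪WW e ρ d μ, ZX e ρ d μ⟫| ≤ KL * s := by
    have := pair_est hN hμ hΩm hball hUc hXc (inv_pos.2 hp1p).le hc.le hUle hXle mX HX hC₀.le
    rw [← WW_eq hN e ρ d hμ] at this
    have e1 : ∫ x, dnl N (bub N μ ξ x) * (p1⁻¹ * bub N μ ξ x * bubXi N e μ ξ x) = 0 := by
      rw [← (int_nl_bubXi hN he hμ ξ).2]
      congr 1; funext x
      rw [nl_eq_dnl hN hμ]; ring
    rw [e1, sub_zero] at this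
    refine this.trans ?_
    calc _ ≤ p1 * (p1⁻¹ * cc N) * (Ct * s) + p1 * p1⁻¹ * C₀ * (aN N * s) := by gcongr
      _ = KL * s := by rw [hKL]; field_simp
  -- lower bound near the centre
  have hsob := sobolev hN (DD_le_univ58 _ mW)
  have plow : cb ≤ nq (ts N) (ball ξ μ) (fn (WW e ρ d μ)) := by
    refine hlow μ ξ _ hμ hsob.1 ?_
    filter_upwards [HW] with x hx hxb
    have hμd' : μ ≤ d := by nlinarith
    obtain ⟨a1, a2, a3⟩ := hx (hball (ball_subset_ball hμd' hxb))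
    have a4 := low_bub hN hμ hxb
    have a5 : 2 * C₀ ≤ alN N * 2 ^ (-cc N) * μ ^ (-cc N) := by
      have b1 : μ ^ cc N ≤ m1 := hs.trans (hsε.trans hεm)
      rw [hm1, le_div_iff₀ (by positivity)] at b1
      have b2 : μ ^ cc N * μ ^ (-cc N) = 1 := by rw [← Real.rpow_add hμ]; simp
      calc 2 * C₀ = (μ ^ cc N * (2 * C₀)) * μ ^ (-cc N) := by
            rw [mul_right_comm, b2, one_mul]
        _ ≤ alN N * 2 ^ (-cc N) * μ ^ (-cc N) := by gcongr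
    have a6 := (abs_le.1 a3).2
    linarith
  have plow2 : cb / SS N ≤ ‖WW e ρ d μ‖ := by
    rw [div_le_iff₀ hSS]
    have b1 := nq_set (subset_univ (ball ξ μ)) hsob.1
    linarith [hsob.2]
  refine ⟨?_, ?_, ?_, ?_, ?_, ?_, ?_, ?_, ?_, ?_, ?_, ?_, ?_, ?_, ?_, ?_, ?_, ?_, ?_, ?_, ?_⟩
  · -- 1
    refine sub1 (K := C1) ?_ k1
    refine (nq_le_set hΩm hΩs zero_le_one g1.1 HW1).trans ?_
    rw [one_mul]; exact g1.2
  · -- 2
    refine sub1 (K := C2) ?_ k2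
    refine (nq_le_set hΩm (subset_univ _) zero_le_one g2.1 (HWp _ hp.le)).trans ?_
    rw [one_mul]; exact g2.2
  · -- 3
    refine sub1 (K := 2 * p1 * C₀ * C2) ?_ k3
    refine (nq_le_set hΩm (subset_univ _) (K := 2 * p1 * C₀) (by positivity) g2.1 ?_).trans ?_
    · filter_upwards [HW] with x hx hxΩ
      obtain ⟨a1, a2, a3⟩ := hx hxΩ
      have b1 := pw_nl_lip hN hN5 (bub N μ ξ x) (fn (WW e ρ d μ) x)
      have b0 := hub x
      rw [abs_of_pos b0, abs_of_nonneg a1] at b1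
      have b2 := Real.rpow_le_rpow a1 a2 hp.le
      have b3 : 0 ≤ fn (WW e ρ d μ) x ^ pm N := Real.rpow_nonneg a1 _
      rw [abs_of_pos (a := bub N μ ξ x ^ pm N) (by positivity)]
      calc _ ≤ p1 * (bub N μ ξ x ^ pm N + fn (WW e ρ d μ) x ^ pm N) *
            |bub N μ ξ x - fn (WW e ρ d μ) x| := b1
        _ ≤ p1 * (bub N μ ξ x ^ pm N + bub N μ ξ x ^ pm N) * C₀ := by gcongr
        _ = _ := by ring
    · calc _ ≤ 2 * p1 * C₀ * (C2 * μ ^ cc N) := by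
            exact mul_le_mul_of_nonneg_left g2.2 (by positivity)
        _ = _ := by ring
  · -- 4
    refine sub2 (K := C4) ?_ k4
    refine (nq_le_set hΩm hΩs zero_le_one g4.1 HW1).trans ?_
    rw [one_mul]; exact g4.2
  · -- 5
    refine sub2 (K := C5) ?_ k5
    refine (nq_le_set hΩm hΩs zero_le_one g5.1 (HWp _ (by linarith))).trans ?_
    rw [one_mul]; exact g5.2
  · -- 6
    refine sub2 (K := 2 * (p1 * pm N) * C₀ * C5) ?_ k6
    refine (nq_le_set hΩm hΩs (K := 2 * (p1 * pm N) * C₀) (by positivity) g5.1 ?_).trans ?_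
    · filter_upwards [HW] with x hx hxΩ
      obtain ⟨a1, a2, a3⟩ := hx hxΩ
      have b1 := pw_dnl_lip hN hN5 (bub N μ ξ x) (fn (WW e ρ d μ) x)
      have b0 := hub x
      rw [abs_of_pos b0, abs_of_nonneg a1] at b1
      have b2 := Real.rpow_le_rpow (z := pm N - 1) a1 a2 (by linarith)
      have b3 : 0 ≤ fn (WW e ρ d μ) x ^ (pm N - 1) := Real.rpow_nonneg a1 _
      rw [abs_of_pos (a := bub N μ ξ x ^ (pm N - 1)) (by positivity)]
      calc _ ≤ (p1 * pm N) * (bub N μ ξ x ^ (pm N - 1) + fn (WW e ρ d μ) x ^ (pm N - 1)) *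
            |bub N μ ξ x - fn (WW e ρ d μ) x| := b1
        _ ≤ (p1 * pm N) * (bub N μ ξ x ^ (pm N - 1) + bub N μ ξ x ^ (pm N - 1)) * C₀ := by gcongr
        _ = _ := by ring
    · calc _ ≤ 2 * (p1 * pm N) * C₀ * (C5 * s) := by
            exact mul_le_mul_of_nonneg_left g5.2 (by positivity)
        _ = _ := by ring
  · -- 7
    refine sub2 (K := C7) ?_ k7
    refine (nq_le_set hΩm hΩs zero_le_one g7.1 HW1).trans ?_
    rw [one_mul]; exact g7.2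
  · -- 8
    refine sub1 (K := C₀ * C1) ?_ k8
    refine (nq_le_set hΩm hΩs hC₀.le g1.1 HM').trans ?_
    calc _ ≤ C₀ * (C1 * μ ^ cc N) := mul_le_mul_of_nonneg_left g1.2 hC₀.le
      _ = _ := by ring
  · -- 9
    refine sub1 (K := C₀ * C1) ?_ k8
    refine (nq_le_set hΩm hΩs hC₀.le g1.1 HX').trans ?_
    calc _ ≤ C₀ * (C1 * μ ^ cc N) := mul_le_mul_of_nonneg_left g1.2 hC₀.le
      _ = _ := by ring
  · -- 10
    refine sub1 (K := p1 * C₀ * C2) ?_ k10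
    refine (nq_le_set hΩm (subset_univ _) (K := p1 * C₀) (by positivity) g2.1 ?_).trans ?_
    · filter_upwards [HM] with x hx hxΩ
      have b0 := hub x
      rw [dnl_bub hN hμ, abs_mul, abs_of_pos (a := (pm N + 1) * bub N μ ξ x ^ pm N)
        (by positivity), abs_of_pos (a := bub N μ ξ x ^ pm N) (by positivity)]
      calc _ ≤ (pm N + 1) * bub N μ ξ x ^ pm N * C₀ := by
            exact mul_le_mul_of_nonneg_left (hx hxΩ) (by positivity)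
        _ = _ := by rw [← hp1]; ring
    · calc _ ≤ p1 * C₀ * (C2 * μ ^ cc N) := by
            exact mul_le_mul_of_nonneg_left g2.2 (by positivity)
        _ = _ := by ring
  · -- 11
    refine sub1 (K := p1 * C₀ * C2) ?_ k10
    refine (nq_le_set hΩm (subset_univ _) (K := p1 * C₀) (by positivity) g2.1 ?_).trans ?_
    · filter_upwards [HX] with x hx hxΩ
      have b0 := hub x
      rw [dnl_bub hN hμ, abs_mul, abs_of_pos (a := (pm N + 1) * bub N μ ξ x ^ pm N)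
        (by positivity), abs_of_pos (a := bub N μ ξ x ^ pm N) (by positivity)]
      calc _ ≤ (pm N + 1) * bub N μ ξ x ^ pm N * C₀ := by
            exact mul_le_mul_of_nonneg_left (hx hxΩ) (by positivity)
        _ = _ := by rw [← hp1]; ring
    · calc _ ≤ p1 * C₀ * (C2 * μ ^ cc N) := by
            exact mul_le_mul_of_nonneg_left g2.2 (by positivity)
        _ = _ := by ring
  · -- 12
    exact (inv_le_of hcb rfl k12).trans plow
  · -- 13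
    refine le_trans ?_ k13
    have b := (Mq_nl_bub hN hμ ξ)
    refine (T_norm hN hΩm (Mq_univ58 _ b.1)).trans ?_
    exact mul_le_mul_of_nonneg_left (b.2 _) hSS.le
  · -- 14
    refine le_trans ?_ k14
    have b := Mq_dnl hN hμ ξ hMc hc.le hMle (ann N ρ)
    refine (T_norm hN hΩm b.1).trans ?_
    exact mul_le_mul_of_nonneg_left b.2 hSS.le
  · -- 15
    refine le_trans ?_ k14
    have b := Mq_dnl hN hμ ξ hXc hc.le hXle (ann N ρ)
    refine (T_norm hN hΩm b.1).trans ?_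
    exact mul_le_mul_of_nonneg_left b.2 hSS.le
  · -- 16
    exact (inv_le_of (by positivity) rfl k15).trans plow2
  · -- 17
    exact (inv_le_of hs1p rfl k16).trans
      (norm_low hG₁ pMM ((mul_le_mul_of_nonneg_left hsε hKKp.le).trans hεG1))
  · -- 18
    exact (inv_le_of hs2p rfl k17).trans
      (norm_low hG₂ pXX ((mul_le_mul_of_nonneg_left hsε hKKp.le).trans hεG2))
  · exact sub2 pMX k18
  · rw [real_inner_comm]; exact sub2 pWM k19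
  · rw [real_inner_comm]; exact sub2 pWX k19

end Pool.Agent.helper13.BN
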